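import Pool.Agent.W711.HT.Geo

/-!
# Volume conjecture for highly twisted two-bridge links: growth rate = maximal volume (task HT-FIN)
-/

set_option autoImplicit false

namespace Pool.Agent.W947.HT.Fin

open Filter Finset Topology
open Pool.Agent.W711.HT

/-- the signed twist numbers from the twist numbers, the last one first -/
def sgr : List ℕ → List ℤ
  | [] => []
  | a :: l => (if l.length % 2 = 0 then (a : ℤ) else -(a : ℤ)) :: sgr l

lemma sgl_append (l : List ℕ) (a : ℕ) : ∀ b : Bool,
    sgl b (l ++ [a]) = (if (l.length % 2 = 0 ↔ b = true) then (a : ℤ) else -(a : ℤ)) :: sgl b l := by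
  induction l with
  | nil => intro b; cases b <;> simp [sgl]
  | cons x l ih =>
    intro b
    have key : ((l.length % 2 = 0 ↔ (!b) = true) ↔ ((l.length + 1) % 2 = 0 ↔ b = true)) := by
      cases b <;> simp <;> omega
    simp only [List.cons_append, sgl, ih (!b), List.length_cons]
    simp only [key]

lemma sgl_reverse (l : List ℕ) : sgl true l.reverse = sgr l := by
  induction l with
  | nil => simp [sgl, sgr]
  | cons x l ih =>
    rw [List.reverse_cons, sgl_append, ih, sgr]
    simp

lemma sgc_eq (L : List (ℕ × ℂ)) : sgc L = sgr (L.map Prod.fst) := by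
  induction L with
  | nil => simp [sgc, sgr]
  | cons p L ih =>
    simp [sgc, sgr, ih, bl]

lemma length_sgr (l : List ℕ) : (sgr l).length = l.length := by
  induction l with
  | nil => simp [sgr]
  | cons x l ih => simp [sgr, ih]

lemma mem_sgr (l : List ℕ) : ∀ b ∈ sgr l, ∃ a ∈ l, |(b : ℝ)| = a := by
  induction l with
  | nil => simp [sgr]
  | cons x l ih =>
    intro b hb
    simp only [sgr, List.mem_cons] at hb
    rcases hb with rfl | hb
    · refine ⟨x, by simp, ?_⟩
      split_ifs <;> simp
    · obtain ⟨a, ha, h⟩ := ih b hb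
      exact ⟨a, by simp [ha], h⟩

lemma crit_length {s : ℂ → ℂ → ℂ} {C ρ τ : ℝ} {l : List ℤ} {ps : List ℂ} {z v g : ℂ}
    (h : Crit s C ρ τ l ps z v g) : l.length = ps.length := by
  induction h with
  | nil => rfl
  | cons a l z ps ψ' v g _ _ _ ih => simp [ih]

lemma sm_eq (L : List (ℕ × ℂ)) : sm L = (L.map Prod.fst).sum := by
  induction L with
  | nil => simp [sm]
  | cons p L ih => simp [sm, ih]

lemma hin_append (l : List ℕ) (a j : ℕ) :
    hin (l ++ [a]) j ↔ hin l j ∨ (l ≠ [] ∧ j + 1 = l.sum) := by
  constructor
  · rintro ⟨i, h0, h1, h2⟩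
    simp only [List.length_append, List.length_cons, List.length_nil] at h1
    rw [List.take_append_of_le_length (by omega)] at h2
    rcases Nat.lt_or_ge i l.length with h | h
    · exact Or.inl ⟨i, h0, h, h2⟩
    · refine Or.inr ⟨?_, ?_⟩
      · intro h'
        subst h'
        simp at h1
        omega
      · rwa [List.take_of_length_le h] at h2
  · rintro (⟨i, h0, h1, h2⟩ | ⟨h0, h1⟩)
    · refine ⟨i, h0, by simp; omega, ?_⟩
      rw [List.take_append_of_le_length (by omega)]
      exact h2
    · refine ⟨l.length, List.length_pos_iff.mpr h0, by simp, ?_⟩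
      rw [List.take_append_of_le_length le_rfl, List.take_length]
      exact h1

lemma isH_iff (L : List (ℕ × ℂ)) (j : ℕ) : isH L j ↔ hin (L.map Prod.fst).reverse j := by
  induction L with
  | nil =>
    simp only [isH, List.map_nil, List.reverse_nil, false_iff]
    rintro ⟨i, h0, h1, _⟩
    simp at h1
  | cons p L ih =>
    rw [List.map_cons, List.reverse_cons, hin_append, ← ih, isH, sm_eq, List.sum_reverse]
    simp

lemma angG_congr {n : ℕ} {H H' : ℕ → Prop} [DecidablePred H] [DecidablePred H']
    (h : ∀ j, H j ↔ H' j) (w : ℕ → ℝ) : AngG n H w ↔ AngG n H' w := by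
  have : H = H' := funext fun j => propext (h j)
  subst this
  simp only [AngG, xg, yg]
  congr!

lemma volG_congr {n : ℕ} {H H' : ℕ → Prop} [DecidablePred H] [DecidablePred H']
    (h : ∀ j, H j ↔ H' j) (w : ℕ → ℝ) : volG n H w = volG n H' w := by
  have : H = H' := funext fun j => propext (h j)
  subst this
  simp only [volG, xg, yg]
  congr!

theorem main : S_MAIN → S_GMAX → S_CHN → S_CHV → S_CCH → S_FIN := by
  intro hmain hgmax hchn hchv hcch
  obtain ⟨ρ, τ, κ, c, s, dl, hKD, C, M, hC, hM, hlim⟩ := hmain
  obtain ⟨M', hM'⟩ := hcch ρ τ κ c s dl hKD C hC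
  refine ⟨max M' ⌈M⌉₊, ?_⟩
  intro as
  obtain ⟨rs, rfl⟩ : ∃ rs : List ℕ, as = rs.reverse := ⟨as.reverse, by simp⟩
  cases rs with
  | nil =>
    intro _ hlen
    simp at hlen
  | cons m ms =>
    intro _ hlen has
    rw [List.length_reverse, List.length_cons] at hlen
    have hms : ms ≠ [] := by
      rintro rfl
      simp at hlen
    have hbd : ∀ a ∈ m :: ms, M' ≤ a ∧ M ≤ (a : ℝ) := by
      intro a ha
      have h1 := has a (List.mem_reverse.mpr ha)
      refine ⟨le_trans (le_max_left _ _) h1, ?_⟩
      exact le_trans (Nat.le_ceil M) (by exact_mod_cast le_trans (le_max_right _ _) h1)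
    obtain ⟨z, ps, v, g, hcrit, hcp, heq, htend, -⟩ :=
      hlim (if ms.length % 2 = 0 then (m : ℤ) else -(m : ℤ)) (sgr ms)
        (by
          intro h
          have := length_sgr ms
          rw [h] at this
          exact hms (List.length_eq_zero_iff.mp this.symm))
        (by
          have := (hbd m (by simp)).2
          split_ifs <;> simpa using this)
        (by
          intro b hb
          obtain ⟨a, ha, h⟩ := mem_sgr ms b hb
          rw [h]
          exact (hbd a (by simp [ha])).2)
    have hl : ms.length = ps.length := by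
      rw [← length_sgr ms]
      exact crit_length hcrit
    set L0 : List (ℕ × ℂ) := ms.zip ps with hL0
    have hfst : L0.map Prod.fst = ms := by
      rw [hL0, List.map_fst_zip (by omega)]
    have hsnd : L0.map Prod.snd = ps := by
      rw [hL0, List.map_snd_zip (by omega)]
    have hL0n : L0 ≠ [] := by
      intro h
      rw [h] at hfst
      exact hms hfst.symm
    have hL0len : L0.length = ms.length := by
      rw [← hfst, List.length_map]
    have hsg : sgc L0 = sgr ms := by rw [sgc_eq, hfst]
    have hif : (if bl L0 = true then (m : ℤ) else -(m : ℤ)) =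
        if ms.length % 2 = 0 then (m : ℤ) else -(m : ℤ) := by
      simp [bl, hL0len]
    have hres := hM' (m, z) L0 hL0n
      (by
        intro p' hp'
        rw [List.mem_cons] at hp'
        rcases hp' with rfl | hp'
        · exact (hbd m (by simp)).1
        · have : p'.1 ∈ ms := by
            rw [← hfst]
            exact List.mem_map_of_mem hp'
          exact (hbd p'.1 (by simp [this])).1)
      v g (by rw [hsg, hsnd]; exact hcrit)
      (by
        simp only [hif]
        exact hcp)
      (by
        simp only [hif]
        exact heq)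
    obtain ⟨hch, hval⟩ := hres
    simp only [hif] at hval
    set L : List (ℕ × ℂ) := (m, z) :: L0 with hL
    have hLfst : L.map Prod.fst = m :: ms := by simp [hL, hfst]
    have hLlen : 2 ≤ L.length := by
      rw [hL, List.length_cons, hL0len]
      exact hlen
    have hiff : ∀ j, isH L j ↔ hin (m :: ms).reverse j := by
      intro j
      rw [isH_iff, hLfst]
    have hsm : sm L = ((m :: ms).reverse).sum := by
      rw [sm_eq, hLfst, List.sum_reverse]
    classical
    have hsol := hchn dl L hLlen hch
    have hgr := hgmax (sm L - 2) (isH L) (Qc dl L) (Pc dl L) hsol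
    rw [hchv dl L hLlen hch] at hgr
    refine ⟨hsum dl L, ?_, ?_⟩
    · rw [hsm] at hgr
      convert hgr using 2
      ext w
      exact exists_congr fun w => by
        rw [angG_congr hiff w, volG_congr hiff w]
    · rw [← hval]
      have hsgl : sgl true (m :: ms).reverse =
          (if ms.length % 2 = 0 then (m : ℤ) else -(m : ℤ)) :: sgr ms := by
        rw [sgl_reverse, sgr]
      rw [hsgl]
      exact htend.const_mul _

end Pool.Agent.W947.HT.Fin
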